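import Mathlib
import Pool.Agent.T6.H48.FM.Defs
import Pool.Agent.T6.H48.FM.Basic
import Pool.Agent.T6.H48.FM.SCH
import Pool.Agent.T6.H48.FM.TRI
import Pool.Agent.T6.H48.FM.GLO
import Pool.Agent.T6.H48.FM.GUP
import Pool.Agent.T6.H48.FM.SYS
import Pool.Agent.T6.H48.FM.SEQ
import Pool.Agent.T6.H48.FM.COPY
import Pool.Agent.T6.H48.FM.LOW
import Pool.Agent.T6.H48.FM.UPP
import Pool.Agent.T6.H48.FM.CNS
import Pool.Agent.T6.H48.FM.LIM
import Pool.Agent.T6.H48.FM.FIN

/-!
# Partial matrices with irrational fractional minimal rank

Over every field there is a partial matrix `A` with irrational `fmr(A)`, namely with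
`fmr(A) = k + (√5 - 1) / 2` for some natural number `k`; in particular the infimum which defines
`fmr(A)` is not attained.

Idea. Let `S` be a matrix of size `b`, `W = F^b`. Suppose that there are matrices `α`, `β` which
commute with `S` and which give an isomorphism `W → S W ⊕ S² W`, `w ↦ (α w, β w)`; this can be written
with finitely many products and one sum (`α = S a`, `β = S² c`, `p α + q β = 1`, `α γ = S`, `β γ = 0`,
`α δ = 0`, `β δ = S²`, `α S = S α`, `β S = S β`). Then `f_n = rank (S^n)` satisfies
`f_n = f_(n+1) + f_(n+2)`, so that `rank S = b / φ`, `φ = (1 + √5) / 2`. There are no solutions with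
`b > 0`, but there are solutions up to matrices of small rank (`b` arbitrarily large; sums of
`Fib (N - j)` Jordan blocks of size `j < N`, only `p α + q β = 1` fails, by a matrix of rank `N - 1`),
and the equation is stable: errors of rank at most `ε` in the equations change `rank S` by at most
`64 ε`. The equations are written as entries of the Schur complement `D - C B` of a partial matrix
with blocks `1, B, C, D` (three coordinates, so `B`, `C` contain points and lines of a projective
plane). To make errors in the equations more expensive than `rank S`, one uses `L` copies of the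
equations, and one row which reads `S` in all copies. The result is a partial matrix with
`fmr = 3 L + 1 / φ`.
-/

set_option autoImplicit false

namespace Pool.Agent.Results.MP_3569d7_al.IrrationalFmr

open Matrix

universe u

/-- A partial matrix over `F` is a function `A : ι → κ → Option F`; the entry `none` is unspecified.
A completion is a matrix which agrees with `A` at all specified entries. -/
def IsCompletion {F : Type u} {ι κ : Type} (A : ι → κ → Option F) (B : Matrix ι κ F) : Prop :=
  ∀ i j a, A i j = some a → B i j = a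

/-- The minimal rank `mr(A)`: the least rank of a completion. -/
noncomputable def mr {F : Type u} {ι κ : Type} [Field F] [Fintype κ] (A : ι → κ → Option F) : ℕ :=
  sInf {r | ∃ B : Matrix ι κ F, IsCompletion A B ∧ B.rank = r}

/-- `A ⊗ I_b`: the block with indices `(i, j)` is `a_ij I_b` if the entry `(i, j)` is specified, and
consists of `b ^ 2` unspecified entries otherwise. -/
def tens {F : Type u} {ι κ : Type} [Field F] (A : ι → κ → Option F) (b : ℕ) :
    (ι × Fin b) → (κ × Fin b) → Option F :=
  fun p q => (A p.1 q.1).map fun a => if p.2 = q.2 then a else 0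

/-- The fractional minimal rank: the infimum over `b ≥ 1` of `mr(A ⊗ I_b) / b`. -/
noncomputable def fmr {F : Type u} {ι κ : Type} [Field F] [Fintype κ] (A : ι → κ → Option F) : ℝ :=
  ⨅ b : {b : ℕ // 1 ≤ b}, (mr (tens A b.1) : ℝ) / (b.1 : ℝ)

/-- **Theorem.** Over every field `F` there is a partial matrix `A` whose fractional minimal rank is
irrational: `fmr(A) = k + (√5 - 1) / 2` for a natural number `k`. In particular the infimum which
defines `fmr(A)` is not attained: `mr_b(A) / b > fmr(A)` for all `b ≥ 1`. -/
theorem result (F : Type u) [Field F] :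
    ∃ (m n k : ℕ) (A : Fin m → Fin n → Option F),
      Irrational (fmr A) ∧ fmr A = k + (√5 - 1) / 2 ∧
        ∀ b : ℕ, 1 ≤ b → fmr A < (mr (tens A b) : ℝ) / (b : ℝ) := by
  open Pool.Agent.T6.H48.FM in
  have hTRI : StmTRI F := mTRI F
  have hSCH : StmSCH F := mSCH F
  have hCOPY : StmCOPY F := mCOPY F (mGLO F) (mSYS F hTRI) mSEQ
  have hLOW : StmLOW F := mLOW F hSCH hTRI hCOPY
  have hUPP : StmUPP F := mUPP F hSCH hTRI (mGUP F)
  obtain ⟨m, n, k, A, hA⟩ := mFIN F hLOW hUPP (mCON F) mLIM
  have hA' : fmr A = k + (√5 - 1) / 2 := hA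
  have hirr : Irrational (fmr A) := by
    rw [hA']
    have h5 : Irrational (√5) := by
      have := Nat.Prime.irrational_sqrt (p := 5) (by norm_num)
      exact_mod_cast this
    have h : ((k : ℝ) + (√5 - 1) / 2) = ((k : ℚ) - 1 / 2 : ℚ) + (1 / 2 : ℚ) * √5 := by
      push_cast
      ring
    rw [h]
    exact (h5.ratCast_mul (by norm_num)).ratCast_add _
  refine ⟨m, n, k, A, hirr, hA', fun b hb => ?_⟩
  have hle : fmr A ≤ (mr (tens A b) : ℝ) / (b : ℝ) := by
    have hbdd : BddBelow (Set.range fun c : {c : ℕ // 1 ≤ c} =>
        (mr (tens A c.1) : ℝ) / (c.1 : ℝ)) := by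
      refine ⟨0, ?_⟩
      rintro _ ⟨c, rfl⟩
      positivity
    exact ciInf_le hbdd ⟨b, hb⟩
  refine lt_of_le_of_ne hle fun heq => hirr ?_
  exact ⟨(mr (tens A b) : ℚ) / (b : ℚ), by rw [heq]; push_cast; rfl⟩

end Pool.Agent.Results.MP_3569d7_al.IrrationalFmr
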